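import Pool.Agent.Helper27.RV.St

set_option autoImplicit false

open Cardinal Ordinal Set

universe u

namespace Pool.Agent.Helper10.RV

open Pool.Agent.Helper27.RV Pool.Agent.Helper65.GS

theorem exists_inj_ord (t : Ordinal.{u}) : ∃ g h : Ordinal.{u} → Ordinal.{u},
    ∀ a < t, h a < t.card.ord ∧ g (h a) = a := by
  classical
  have hc : #(t.ToType) = #(t.card.ord.ToType) := by rw [mk_toType, mk_toType, card_ord]
  obtain ⟨e⟩ := Cardinal.eq.1 hc
  refine ⟨fun b => if hb : b < t.card.ord then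
      ((e.symm (ToType.mk ⟨b, hb⟩)).toOrd : Ordinal.{u}) else 0,
    fun a => if ha : a < t then ((e (ToType.mk ⟨a, ha⟩)).toOrd : Ordinal.{u}) else 0, ?_⟩
  intro a ha
  have h1 : ((e (ToType.mk ⟨a, ha⟩)).toOrd : Ordinal.{u}) < t.card.ord := (e _).toOrd.2
  simp only [ha, dite_true]
  refine ⟨h1, ?_⟩
  simp only [h1, dite_true]
  simp [ToType.toOrd]

theorem pDC (hSELF : StSELF.{u}) : StDC.{u} := by
  intro K m L J c hJ hL
  choose g h hgh using fun l => exists_inj_ord (c l)
  refine hSELF K m L J c (fun l => (c l).card.ord) _ hJ ?_ ?_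
  · intro ι hι E
    obtain ⟨S, h1, h2⟩ := hL ι hι (fun i l k => g l (E i l k))
    refine ⟨fun l n => h l (S l n), fun l _ n => (hgh l _ (h1 l trivial n)).1, ?_⟩
    rintro B hB ⟨I, hI, h3⟩
    refine h2 B (subset_univ _) ⟨I, hI, fun l hl n => ?_⟩
    obtain ⟨i, hi, k, hk⟩ := h3 l hl n
    have hk' : h l (S l n) = E i l k := hk
    refine ⟨i, hi, k, ?_⟩
    show S l n = g l (E i l k)
    rw [← hk']
    exact (hgh l _ (h1 l trivial n)).2.symm
  · intro l hl
    exact lt_of_le_of_ne (ord_card_le _) hl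

end Pool.Agent.Helper10.RV
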